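import Pool.Agent.Lib.MP_b5021c_nt.IfaceB

/-!
# MP_b5021c_nt, row B5A: the constant coefficient after closing an extreme ray
-/

namespace Pool.Agent.B5.H65

open scoped LaurentPolynomial

/-- The coefficients of the closed element. -/
theorem cl_coeff {O : Type} [CommRing O] {L : Type} [AddCommGroup L] (k : L →+ ℤ) (S : L)
    (h : k S = 1) (eta : (RO O)ˣ) (D : AO O L) (b : Ker k) :
    (cl k S h eta D).coeff b = ∑ a ∈ D.coeff.support,
      (Finsupp.single (prj k S h a) (D.coeff a * ((eta ^ (k a) : (RO O)ˣ) : RO O)) : Ker k →₀ RO O) b := by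
  classical
  have h1 : cl k S h eta D = D.coeff.sum fun a q => cl k S h eta (AddMonoidAlgebra.single a q) := by
    rw [← map_finsuppSum]
    congr 1
    exact (AddMonoidAlgebra.sum_coeff_single D).symm
  rw [h1, Finsupp.sum, AddMonoidAlgebra.coeff_sum, Finsupp.finsetSum_apply]
  refine Finset.sum_congr rfl fun a _ => ?_
  rw [cl_single, AddMonoidAlgebra.coeff_single]

/-- B5A. -/
theorem b5a : B5aS := by
  intro O _ _ _ _ L _ _ _ D k S h eta lam hS hlam
  classical
  have hS0 : S ≠ 0 := by
    rintro rfl
    simp at h
  have hp0 : prj k S h 0 = 0 := map_zero _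
  have hpS : prj k S h S = 0 := by
    apply Subtype.ext
    rw [prj_coe, h, one_zsmul, sub_self]
    rfl
  have hlp : ∀ a, lam ((prj k S h a : Ker k) : L) = lam a := by
    intro a
    rw [prj_coe, map_sub, map_zsmul, hS, smul_zero, sub_zero]
  have hpz : ∀ a ∈ supp D, a ≠ 0 → a ≠ S → prj k S h a ≠ 0 := by
    intro a ha h0 h1 h2
    have h3 := hlam a ha h0 h1
    rw [← hlp a, h2] at h3
    simp at h3
  constructor
  · rw [cl_coeff]
    have hsub : D.coeff.support ⊆ D.coeff.support ∪ {0, S} := Finset.subset_union_left
    rw [Finset.sum_subset hsub]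
    · have hsub2 : ({0, S} : Finset L) ⊆ D.coeff.support ∪ {0, S} := Finset.subset_union_right
      rw [← Finset.sum_subset hsub2]
      · rw [Finset.sum_pair hS0.symm, hp0, hpS, Finsupp.single_eq_same, Finsupp.single_eq_same,
          map_zero k, h, zpow_zero, zpow_one, Units.val_one, mul_one, mul_comm (D.coeff S)]
      · intro a ha hb
        rw [Finset.mem_insert, Finset.mem_singleton, not_or] at hb
        rw [Finsupp.single_apply, if_neg]
        rcases Finset.mem_union.1 ha with h3 | h3
        · exact hpz a (Finsupp.mem_support_iff.1 h3) hb.1 hb.2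
        · exfalso
          rw [Finset.mem_insert, Finset.mem_singleton] at h3
          rcases h3 with h3 | h3
          · exact hb.1 h3
          · exact hb.2 h3
    · intro a _ hb
      rw [Finsupp.notMem_support_iff.1 hb, zero_mul, Finsupp.single_zero, Finsupp.zero_apply]
  · intro b hb hb0
    have h4 : ∃ a ∈ D.coeff.support, prj k S h a = b := by
      by_contra hcon
      push Not at hcon
      apply Finsupp.mem_support_iff.1 hb
      rw [cl_coeff]
      refine Finset.sum_eq_zero fun a ha => ?_
      rw [Finsupp.single_apply, if_neg]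
      exact hcon a ha
    obtain ⟨a, ha, rfl⟩ := h4
    have h5 : a ≠ 0 := by
      rintro rfl
      exact hb0 hp0
    have h6 : a ≠ S := by
      rintro rfl
      exact hb0 hpS
    have h7 := hlam a (Finsupp.mem_support_iff.1 ha) h5 h6
    change 0 < lam ((prj k S h a : Ker k) : L)
    rw [hlp]
    exact h7

end Pool.Agent.B5.H65
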