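import Pool.Agent.Lib.MP_b5021c_nt.IfaceS1

/-!
# MP_b5021c_nt, board b5, row S_KMU: a set of deficient rank is killed by a functional
-/

namespace Pool.Agent.B5.H65

open Pool.Agent.B5

/-- KMU -/
theorem s_kmu : KmuS := by
  intro L _ _ _ S hS
  have hS' : Module.finrank ℤ (Submodule.span ℤ S) < Module.finrank ℤ L := hS
  clear hS
  generalize hN : (Submodule.span ℤ S : Submodule ℤ L) = N at hS'
  have h1 := Submodule.finrank_quotient_add_finrank N
  have hpos : Module.finrank ℤ (L ⧸ N) ≠ 0 := by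
    intro h
    rw [h, zero_add] at h1
    omega
  have hnt : ¬ Module.IsTorsion ℤ (L ⧸ N) := fun h =>
    hpos (Module.finrank_eq_zero_iff_isTorsion.2 h)
  have hne : ∃ x : L ⧸ N, x ∉ Submodule.torsion ℤ (L ⧸ N) := by
    by_contra hc
    push Not at hc
    apply hnt
    intro x
    exact (Submodule.mem_torsion_iff x).1 (hc x)
  obtain ⟨x, hx⟩ := hne
  let Q := (L ⧸ N) ⧸ Submodule.torsion ℤ (L ⧸ N)
  let b := Module.Free.chooseBasis ℤ Q
  have hx0 : (Submodule.Quotient.mk x : Q) ≠ 0 := by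
    intro h
    exact hx ((Submodule.Quotient.mk_eq_zero _).1 h)
  have hrep : b.repr (Submodule.Quotient.mk x : Q) ≠ 0 := by
    intro h
    exact hx0 (b.repr.map_eq_zero_iff.1 h)
  obtain ⟨i, hi⟩ := Finsupp.ne_iff.1 hrep
  obtain ⟨y, rfl⟩ := Submodule.Quotient.mk_surjective N x
  refine ⟨((b.coord i).comp ((Submodule.mkQ (Submodule.torsion ℤ (L ⧸ N))).comp
    (Submodule.mkQ N))).toAddMonoidHom, ?_, ?_⟩
  · intro h
    apply hi
    have h2 := DFunLike.congr_fun h y
    exact h2
  · intro a ha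
    have h2 : Submodule.mkQ N a = 0 := by
      rw [Submodule.mkQ_apply, Submodule.Quotient.mk_eq_zero, ← hN]
      exact Submodule.subset_span ha
    change b.coord i (Submodule.mkQ _ (Submodule.mkQ N a)) = 0
    rw [h2, map_zero, map_zero]

end Pool.Agent.B5.H65
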